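import Pool.Agent.K3h15.BF.Stm

/-!
# Brick DEHOM: b-functions of homogeneous polynomials in a chart
-/

set_option autoImplicit false

namespace Pool.Agent.K3h58.BF

open MvPolynomial
open Pool.Agent.H628R4.TP (weylS IsBFunction)
open Pool.Agent.K3h15.BF

theorem pderiv_comm {σ : Type} (i j : σ) (G : MvPolynomial σ ℂ) :
    pderiv i (pderiv j G) = pderiv j (pderiv i G) := by
  classical
  induction G using MvPolynomial.induction_on with
  | C a => simp
  | add p q hp hq => simp only [map_add, hp, hq]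
  | mul_X p k hp =>
    simp only [pderiv_mul, map_add, pderiv_X, hp]
    have h1 : ∀ a b : σ, pderiv a ((Pi.single b (1 : MvPolynomial σ ℂ) : σ → MvPolynomial σ ℂ) k) = 0 := by
      intro a b
      by_cases h : k = b
      · subst h; simp
      · rw [Pi.single_eq_of_ne h, map_zero]
    rw [h1, h1]
    ring

/-- the Euler operator -/
noncomputable def eul {σ : Type} [Fintype σ] (G : MvPolynomial σ ℂ) : MvPolynomial σ ℂ :=
  ∑ i, X i * pderiv i G

theorem eul_X_mul {σ : Type} [Fintype σ] (j : σ) (G : MvPolynomial σ ℂ) :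
    eul (X j * G) = X j * eul G + X j * G := by
  classical
  unfold eul
  simp only [pderiv_mul, pderiv_X, mul_add, Finset.sum_add_distrib, Finset.mul_sum]
  rw [add_comm]
  congr 1
  · exact Finset.sum_congr rfl fun i _ => by ring
  · rw [Finset.sum_eq_single j]
    · simp
    · intro i _ hi
      rw [Pi.single_eq_of_ne (Ne.symm hi)]
      simp
    · simp

theorem eul_pderiv {σ : Type} [Fintype σ] (j : σ) (G : MvPolynomial σ ℂ) :
    eul (pderiv j G) = pderiv j (eul G) - pderiv j G := by
  classical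
  unfold eul
  simp only [map_sum, pderiv_mul, pderiv_X, Finset.sum_add_distrib]
  have h1 : ∑ x, (Pi.single j (1 : MvPolynomial σ ℂ) : σ → MvPolynomial σ ℂ) x * pderiv x G =
      pderiv j G := by
    rw [Finset.sum_eq_single j]
    · simp
    · intro i _ hi
      rw [Pi.single_eq_of_ne hi]
      simp
    · simp
  rw [h1, add_sub_cancel_left]
  exact Finset.sum_congr rfl fun i _ => by rw [pderiv_comm]

theorem dh_C (n : ℕ) (a : ℂ) : dh n (C a) = C a := by
  unfold dh
  rw [aeval_C]
  rfl

theorem dh_X_cast (n : ℕ) (j : Fin n) : dh n (X j.castSucc) = X j := by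
  unfold dh
  rw [aeval_X]
  simp

theorem dh_X_last (n : ℕ) : dh n (X (Fin.last n)) = 1 := by
  unfold dh
  rw [aeval_X]
  simp

theorem dh_pderiv (n : ℕ) (j : Fin n) (G : MvPolynomial (Fin (n + 1)) ℂ) :
    dh n (pderiv j.castSucc G) = pderiv j (dh n G) := by
  classical
  induction G using MvPolynomial.induction_on with
  | C a => simp
  | add p q hp hq => simp only [map_add, hp, hq]
  | mul_X p k hp =>
    simp only [pderiv_mul, map_add, map_mul, hp]
    congr 2
    refine Fin.lastCases ?_ (fun i => ?_) k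
    · rw [dh_X_last, pderiv_one, pderiv_X_of_ne, map_zero]
      exact (Fin.castSucc_lt_last j).ne'
    · rw [dh_X_cast]
      by_cases h : i = j
      · subst h
        rw [pderiv_X_self, pderiv_X_self, map_one]
      · rw [pderiv_X_of_ne h, pderiv_X_of_ne, map_zero]
        intro h2
        exact h (Fin.castSucc_injective _ h2)

theorem dh_eul (n : ℕ) (G : MvPolynomial (Fin (n + 1)) ℂ) :
    dh n (pderiv (Fin.last n) G) = dh n (eul G) - ∑ j : Fin n, X j * pderiv j (dh n G) := by
  unfold eul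
  rw [Fin.sum_univ_castSucc, map_add, map_sum, map_mul, dh_X_last, one_mul]
  simp only [map_mul, dh_X_cast, dh_pderiv]
  ring

/-- the map from the coefficients to the sequences -/
noncomputable def T {n : ℕ} (g : MvPolynomial (Fin n) ℂ) :
    (ℕ →₀ weylS (Fin n)) →ₗ[ℂ] (ℕ → MvPolynomial (Fin n) ℂ) :=
  Finsupp.lsum ℂ fun m =>
    { toFun := fun Q s => ((s : ℂ) ^ m) • (Q : Module.End ℂ (MvPolynomial (Fin n) ℂ)) (g ^ (s + 1))
      map_add' := by
        intro Q Q'
        funext s
        simp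
      map_smul' := by
        intro a Q
        funext s
        simp [smul_comm a] }

theorem T_apply {n : ℕ} (g : MvPolynomial (Fin n) ℂ) (P : ℕ →₀ weylS (Fin n)) (s : ℕ) :
    T g P s = P.sum fun m Q =>
      ((s : ℂ) ^ m) • (Q : Module.End ℂ (MvPolynomial (Fin n) ℂ)) (g ^ (s + 1)) := by
  rw [T, Finsupp.lsum_apply, Finsupp.sum, Finset.sum_apply]
  rfl

theorem T_single {n : ℕ} (g : MvPolynomial (Fin n) ℂ) (m : ℕ) (Q : weylS (Fin n)) (s : ℕ) :
    T g (Finsupp.single m Q) s =
      ((s : ℂ) ^ m) • (Q : Module.End ℂ (MvPolynomial (Fin n) ℂ)) (g ^ (s + 1)) := by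
  rw [T_apply, Finsupp.sum_single_index]
  simp

theorem range_op {n : ℕ} (g : MvPolynomial (Fin n) ℂ) (Q₀ : Module.End ℂ (MvPolynomial (Fin n) ℂ))
    (hQ : Q₀ ∈ weylS (Fin n)) (Φ : ℕ → MvPolynomial (Fin n) ℂ) (h : Φ ∈ LinearMap.range (T g)) :
    (fun s => Q₀ (Φ s)) ∈ LinearMap.range (T g) := by
  obtain ⟨P, rfl⟩ := h
  induction P using Finsupp.induction_linear with
  | zero => simp only [map_zero, Pi.zero_apply]; exact zero_mem _
  | add P P' h h' =>
    have : (fun s => Q₀ ((T g) (P + P') s)) = (fun s => Q₀ (T g P s)) + fun s => Q₀ (T g P' s) := by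
      funext s
      simp only [map_add, Pi.add_apply]
    rw [this]
    exact add_mem h h'
  | single m Q =>
    refine ⟨Finsupp.single m (⟨Q₀, hQ⟩ * Q), ?_⟩
    funext s
    rw [T_single, T_single]
    simp

theorem range_s {n : ℕ} (g : MvPolynomial (Fin n) ℂ) (k : ℕ)
    (Φ : ℕ → MvPolynomial (Fin n) ℂ) (h : Φ ∈ LinearMap.range (T g)) :
    (fun s : ℕ => ((s : ℂ) ^ k) • (Φ s)) ∈ LinearMap.range (T g) := by
  obtain ⟨P, rfl⟩ := h
  induction P using Finsupp.induction_linear with
  | zero => simp only [map_zero, Pi.zero_apply, smul_zero]; exact zero_mem _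
  | add P P' h h' =>
    have : (fun s : ℕ => ((s : ℂ) ^ k) • ((T g) (P + P') s)) =
        (fun s : ℕ => ((s : ℂ) ^ k) • (T g P s)) + fun s : ℕ => ((s : ℂ) ^ k) • (T g P' s) := by
      funext s
      simp only [map_add, Pi.add_apply, smul_add]
    rw [this]
    exact add_mem h h'
  | single m Q =>
    refine ⟨Finsupp.single (k + m) Q, ?_⟩
    funext s
    rw [T_single, T_single, pow_add, mul_smul]

theorem mulX_mem (n : ℕ) (j : Fin n) :
    LinearMap.mulLeft ℂ (X j : MvPolynomial (Fin n) ℂ) ∈ weylS (Fin n) :=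
  Algebra.subset_adjoin (Or.inl ⟨j, rfl⟩)

theorem pderiv_mem (n : ℕ) (j : Fin n) :
    ((pderiv j : Derivation ℂ (MvPolynomial (Fin n) ℂ) (MvPolynomial (Fin n) ℂ)) :
      MvPolynomial (Fin n) ℂ →ₗ[ℂ] MvPolynomial (Fin n) ℂ) ∈ weylS (Fin n) :=
  Algebra.subset_adjoin (Or.inr ⟨j, rfl⟩)

theorem word (n d : ℕ) (f : MvPolynomial (Fin (n + 1)) ℂ) (hf : f.IsHomogeneous d)
    (W : Module.End ℂ (MvPolynomial (Fin (n + 1)) ℂ))
    (hW : W ∈ Submonoid.closure (Set.range (fun i => LinearMap.mulLeft ℂ
      (X i : MvPolynomial (Fin (n + 1)) ℂ)) ∪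
      Set.range (fun i => ((pderiv i : Derivation ℂ (MvPolynomial (Fin (n + 1)) ℂ)
        (MvPolynomial (Fin (n + 1)) ℂ)) :
          MvPolynomial (Fin (n + 1)) ℂ →ₗ[ℂ] MvPolynomial (Fin (n + 1)) ℂ)))) :
    (∃ δ : ℂ, ∀ s : ℕ, eul (W (f ^ (s + 1))) = ((d : ℂ) * (s + 1) + δ) • W (f ^ (s + 1))) ∧
      (fun s => dh n (W (f ^ (s + 1)))) ∈ LinearMap.range (T (dh n f)) := by
  induction hW using Submonoid.closure_induction_left with
  | one =>
    refine ⟨⟨0, fun s => ?_⟩, Finsupp.single 0 1, ?_⟩
    · rw [Module.End.one_apply, eul, (hf.pow (s + 1)).sum_X_mul_pderiv, add_zero,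
        ← Nat.cast_smul_eq_nsmul ℂ]
      push_cast
      ring_nf
    · funext s
      rw [T_single]
      simp
  | mul_left x hx y hy ih =>
    obtain ⟨⟨δ, hδ⟩, hr⟩ := ih
    rcases hx with ⟨j, rfl⟩ | ⟨j, rfl⟩
    · refine ⟨⟨δ + 1, fun s => ?_⟩, ?_⟩
      · rw [Module.End.mul_apply, LinearMap.mulLeft_apply, eul_X_mul, hδ]
        simp only [add_smul, one_smul, mul_smul_comm, mul_add]
        abel
      · simp only [Module.End.mul_apply, LinearMap.mulLeft_apply, map_mul]
        refine Fin.lastCases ?_ (fun i => ?_) j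
        · simp only [dh_X_last, one_mul]
          exact hr
        · simp only [dh_X_cast]
          exact range_op (dh n f) _ (mulX_mem n i) _ hr
    · refine ⟨⟨δ - 1, fun s => ?_⟩, ?_⟩
      · rw [Module.End.mul_apply, Derivation.coeFn_coe, eul_pderiv, hδ, Derivation.map_smul]
        simp only [add_smul, sub_smul, one_smul]
        abel
      · simp only [Module.End.mul_apply, Derivation.coeFn_coe]
        refine Fin.lastCases ?_ (fun i => ?_) j
        · have : (fun s => dh n (pderiv (Fin.last n) (y (f ^ (s + 1))))) =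
              (d : ℂ) • (fun s : ℕ => ((s : ℂ) ^ 1) • (dh n (y (f ^ (s + 1))))) +
              ((d : ℂ) + δ) • (fun s : ℕ => dh n (y (f ^ (s + 1)))) -
              ∑ j : Fin n, (fun s => X j * pderiv j (dh n (y (f ^ (s + 1))))) := by
            funext s
            rw [dh_eul, hδ, map_smul]
            simp only [Pi.sub_apply, Pi.add_apply, Pi.smul_apply, Finset.sum_apply, pow_one,
              smul_smul, ← add_smul]
            congr 2
            ring
          rw [this]
          refine sub_mem (add_mem (Submodule.smul_mem _ _ (range_s _ 1 _ hr))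
            (Submodule.smul_mem _ _ hr)) (sum_mem fun j _ => ?_)
          exact range_op (dh n f) _ (mul_mem (mulX_mem n j) (pderiv_mem n j)) _ hr
        · simp only [dh_pderiv]
          exact range_op (dh n f) _ (pderiv_mem n i) _ hr

theorem t_Dehom : StmDehom := by
  intro n d f hf c hc
  obtain ⟨P, hP⟩ := hc
  have key : ∀ Q : weylS (Fin (n + 1)), (fun s : ℕ => dh n
      ((Q : Module.End ℂ (MvPolynomial (Fin (n + 1)) ℂ)) (f ^ (s + 1)))) ∈
      LinearMap.range (T (dh n f)) := by
    rintro ⟨Q, hQ⟩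
    have hQ' : Q ∈ Subalgebra.toSubmodule (weylS (Fin (n + 1))) := hQ
    rw [weylS, Algebra.adjoin_eq_span] at hQ'
    simp only
    clear hQ
    induction hQ' using Submodule.span_induction with
    | mem x hx => exact (word n d f hf x hx).2
    | zero => simp only [LinearMap.zero_apply, map_zero]; exact zero_mem _
    | add x y _ _ h h' =>
      simp only [LinearMap.add_apply, map_add]
      exact add_mem h h'
    | smul a x _ h =>
      simp only [LinearMap.smul_apply, map_smul]
      exact Submodule.smul_mem _ a h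
  have hmain : (fun s : ℕ => P.sum fun m Q => ((s : ℂ) ^ m) • dh n
      ((Q : Module.End ℂ (MvPolynomial (Fin (n + 1)) ℂ)) (f ^ (s + 1)))) ∈
      LinearMap.range (T (dh n f)) := by
    have : (fun s : ℕ => P.sum fun m Q => ((s : ℂ) ^ m) • dh n
      ((Q : Module.End ℂ (MvPolynomial (Fin (n + 1)) ℂ)) (f ^ (s + 1)))) =
      ∑ m ∈ P.support, fun s : ℕ => ((s : ℂ) ^ m) • dh n
      (((P m : weylS (Fin (n + 1))) : Module.End ℂ (MvPolynomial (Fin (n + 1)) ℂ))
        (f ^ (s + 1))) := by
      funext s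
      rw [Finset.sum_apply]
      rfl
    rw [this]
    exact sum_mem fun m _ => range_s _ m _ (key (P m))
  obtain ⟨R, hR⟩ := hmain
  refine ⟨R, fun s => ?_⟩
  rw [← T_apply, hR]
  have := congrArg (dh n) (hP s)
  rw [map_mul, map_pow, dh_C] at this
  rw [this]
  simp only [Finsupp.sum, map_sum, map_smul]

end Pool.Agent.K3h58.BF
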