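import Pool.Agent.K3h58.BF.TransSteps

/-!
# Bricks ADJR and FE of project BF
-/

set_option autoImplicit false

namespace Pool.Agent.K3h58.BF2

open MvPolynomial
open Pool.Agent.H628R4.TP (weylS IsBFunction)
open Pool.Agent.K3h34.BF

variable {σ : Type}

/-- families, from their coefficients -/
noncomputable def TF : (ℕ →₀ Module.End ℂ (MvPolynomial σ ℂ)) →ₗ[ℂ]
    (ℂ → Module.End ℂ (MvPolynomial σ ℂ)) :=
  Finsupp.lsum ℂ fun m =>
    { toFun := fun a s => (s ^ m) • a
      map_add' := by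
        intro Q Q'
        funext s
        simp
      map_smul' := by
        intro a Q
        funext s
        simp [smul_comm a] }

theorem TF_apply (P : ℕ →₀ Module.End ℂ (MvPolynomial σ ℂ)) (s : ℂ) :
    TF P s = P.sum fun m a => (s ^ m) • a := by
  rw [TF, Finsupp.lsum_apply, Finsupp.sum, Finset.sum_apply]
  rfl

theorem TF_single (m : ℕ) (a : Module.End ℂ (MvPolynomial σ ℂ)) (s : ℂ) :
    TF (Finsupp.single m a) s = (s ^ m) • a := by
  rw [TF_apply, Finsupp.sum_single_index]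
  simp

theorem fam_iff (W : ℂ → (MvPolynomial σ ℂ →ₗ[ℂ] MvPolynomial σ ℂ)) :
    Fam W ↔ W ∈ LinearMap.range (TF (σ := σ)) := by
  constructor
  · rintro ⟨K, w, h⟩
    have : W = ∑ k ∈ Finset.range K, TF (Finsupp.single k (w k)) := by
      funext s
      rw [h s, Finset.sum_apply]
      exact Finset.sum_congr rfl fun k _ => (TF_single k _ s).symm
    rw [this]
    exact sum_mem fun k _ => ⟨_, rfl⟩
  · rintro ⟨P, rfl⟩
    refine ⟨P.support.sup id + 1, P, fun s => ?_⟩
    rw [TF_apply]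
    refine Finsupp.sum_of_support_subset _ (fun k hk => ?_) _ (fun _ _ => by simp)
    rw [Finset.mem_range]
    exact Nat.lt_succ_of_le (Finset.le_sup (f := id) hk)

theorem fam_const (a : Module.End ℂ (MvPolynomial σ ℂ)) : Fam fun _ => a := by
  rw [fam_iff]
  refine ⟨Finsupp.single 0 a, ?_⟩
  funext s
  rw [TF_single]
  simp

theorem fam_add {W W' : ℂ → (MvPolynomial σ ℂ →ₗ[ℂ] MvPolynomial σ ℂ)} (h : Fam W)
    (h' : Fam W') : Fam fun s => W s + W' s := by
  rw [fam_iff] at h h' ⊢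
  exact add_mem h h'

theorem fam_smul {W : ℂ → (MvPolynomial σ ℂ →ₗ[ℂ] MvPolynomial σ ℂ)} (a : ℂ) (h : Fam W) :
    Fam fun s => a • W s := by
  rw [fam_iff] at h ⊢
  exact Submodule.smul_mem _ a h

theorem fam_s {W : ℂ → (MvPolynomial σ ℂ →ₗ[ℂ] MvPolynomial σ ℂ)} (h : Fam W) (k : ℕ) :
    Fam fun s => (s ^ k) • W s := by
  rw [fam_iff] at h ⊢
  obtain ⟨P, rfl⟩ := h
  induction P using Finsupp.induction_linear with
  | zero => simp only [map_zero, Pi.zero_apply, smul_zero]; exact zero_mem _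
  | add P P' h h' =>
    simp only [map_add, Pi.add_apply, smul_add]
    exact add_mem h h'
  | single m Q =>
    refine ⟨Finsupp.single (k + m) Q, ?_⟩
    funext s
    rw [TF_single, TF_single, pow_add, mul_smul]

theorem fam_lin {W : ℂ → (MvPolynomial σ ℂ →ₗ[ℂ] MvPolynomial σ ℂ)} (h : Fam W) (a : ℂ)
    (k : ℕ) : Fam fun s => ((s + a) ^ k) • W s := by
  induction k with
  | zero => simpa using h
  | succ k ih =>
    have : (fun s => ((s + a) ^ (k + 1)) • W s) = fun s =>
        (s ^ 1) • (((s + a) ^ k) • W s) + a • (((s + a) ^ k) • W s) := by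
      funext s
      rw [smul_smul, smul_smul, ← add_smul]
      congr 1
      ring
    rw [this]
    exact fam_add (fam_s ih 1) (fam_smul a ih)

theorem fam_sum {ι : Type} (S : Finset ι) (W : ι → ℂ → (MvPolynomial σ ℂ →ₗ[ℂ] MvPolynomial σ ℂ))
    (h : ∀ i ∈ S, Fam (W i)) : Fam fun s => ∑ i ∈ S, W i s := by
  rw [fam_iff]
  have : (fun s => ∑ i ∈ S, W i s) = ∑ i ∈ S, W i := by
    funext s
    rw [Finset.sum_apply]
  rw [this]
  exact sum_mem fun i hi => (fam_iff _).1 (h i hi)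

theorem fam_shift {W : ℂ → (MvPolynomial σ ℂ →ₗ[ℂ] MvPolynomial σ ℂ)} (h : Fam W) (a : ℂ) :
    Fam fun s => W (s + a) := by
  obtain ⟨K, w, hw⟩ := h
  have : (fun s => W (s + a)) = fun s => ∑ k ∈ Finset.range K, ((s + a) ^ k) • w k := by
    funext s
    exact hw _
  rw [this]
  exact fam_sum _ _ fun k _ => fam_lin (fam_const _) a k

theorem fam_comp {W W' : ℂ → (MvPolynomial σ ℂ →ₗ[ℂ] MvPolynomial σ ℂ)} (h : Fam W)
    (h' : Fam W') : Fam fun s => W s ∘ₗ W' s := by
  obtain ⟨K, w, hw⟩ := h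
  obtain ⟨K', w', hw'⟩ := h'
  have : (fun s => W s ∘ₗ W' s) = fun s => ∑ k ∈ Finset.range K, ∑ l ∈ Finset.range K',
      (s ^ k) • ((s ^ l) • (w k ∘ₗ w' l)) := by
    funext s
    rw [hw, hw']
    apply LinearMap.ext
    intro p
    simp only [LinearMap.comp_apply, LinearMap.sum_apply, LinearMap.smul_apply, map_sum, map_smul,
      Finset.smul_sum]
    rw [Finset.sum_comm]
    exact Finset.sum_congr rfl fun x _ => Finset.sum_congr rfl fun y _ => smul_comm _ _ _
  rw [this]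
  exact fam_sum _ _ fun k _ => fam_sum _ _ fun l _ => fam_s (fam_s (fam_const _) l) k

theorem tw_pow {f : MvPolynomial σ ℂ} {w : σ → MvPolynomial σ ℂ}
    {Λ : ℝ → (MvPolynomial σ ℂ →ₗ[ℂ] ℂ)} (h : IsTw f w Λ) (m : ℕ) :
    ∀ (s : ℝ) (_ : 0 < s) (g : MvPolynomial σ ℂ), Λ s (f ^ m * g) = Λ (s + m) g := by
  induction m with
  | zero => intro s _ g; simp
  | succ m ih =>
    intro s hs g
    have h1 : f ^ (m + 1) * g = f * (f ^ m * g) := by ring
    rw [h1, h.1 s hs, ih (s + 1) (by linarith)]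
    congr 1
    push_cast
    congr 1
    ring

theorem t_AdjR : StmAdjR := by
  classical
  intro σ f w Q hQ
  induction hQ using Algebra.adjoin_induction with
  | mem x hx =>
    rcases hx with ⟨j, rfl⟩ | ⟨j, rfl⟩
    · refine ⟨LinearMap.mulLeft ℂ (X j), 0, fun m _ => ⟨fun _ => LinearMap.mulLeft ℂ (f ^ m * X j),
        fam_const _, fun s H => ?_, fun Λ hΛ s hs v H => ?_⟩⟩
      · simp only [LinearMap.mulLeft_apply]
        ring
      · simp only [LinearMap.mulLeft_apply]
        rw [← tw_pow hΛ m s hs]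
        congr 1
        ring
    · refine ⟨LinearMap.mulLeft ℂ (w j) - ((pderiv j : Derivation ℂ (MvPolynomial σ ℂ)
          (MvPolynomial σ ℂ)) : MvPolynomial σ ℂ →ₗ[ℂ] MvPolynomial σ ℂ), 1, fun m hm => ?_⟩
      obtain ⟨m, rfl⟩ : ∃ m', m = m' + 1 := ⟨m - 1, by omega⟩
      refine ⟨fun s => LinearMap.mulLeft ℂ (f ^ (m + 1)) ∘ₗ
        ((pderiv j : Derivation ℂ (MvPolynomial σ ℂ)
          (MvPolynomial σ ℂ)) : MvPolynomial σ ℂ →ₗ[ℂ] MvPolynomial σ ℂ) +
        ((s + ((m : ℂ) + 1)) ^ 1) • LinearMap.mulLeft ℂ (f ^ m * pderiv j f),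
        fam_add (fam_const _) (fam_lin (fam_const _) _ 1), fun s H => ?_,
        fun Λ hΛ s hs v H => ?_⟩
      · simp only [Derivation.coeFn_coe, LinearMap.add_apply, LinearMap.comp_apply,
          LinearMap.mulLeft_apply, LinearMap.smul_apply, pow_one]
        rw [pderiv_mul, pderiv_pow, smul_eq_C_mul]
        have h1 : s + (m + 1) - 1 = s + m := by omega
        rw [h1]
        simp only [C_add, C_1, map_natCast]
        push_cast
        ring
      · simp only [Derivation.coeFn_coe, LinearMap.add_apply, LinearMap.comp_apply,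
          LinearMap.mulLeft_apply, LinearMap.smul_apply, LinearMap.sub_apply, pow_one]
        have hs' : (0 : ℝ) < s + m := by positivity
        have h2 := hΛ.2 (s + m) hs' j (v * H)
        have h3 := hΛ.1 (s + m) hs' (pderiv j v * H)
        have h4 := tw_pow hΛ m s hs (f * (v * pderiv j H) +
          (((s : ℂ) + ((m : ℂ) + 1))) • (pderiv j f * (v * H)))
        have e1 : v * (f ^ (m + 1) * pderiv j H + ((s : ℂ) + ((m : ℂ) + 1)) •
            (f ^ m * pderiv j f * H)) = f ^ m * (f * (v * pderiv j H) +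
          (((s : ℂ) + ((m : ℂ) + 1))) • (pderiv j f * (v * H))) := by
          simp only [smul_eq_C_mul]
          ring
        rw [e1, h4]
        have e2 : f * (v * pderiv j H) + (((s : ℂ) + ((m : ℂ) + 1))) • (pderiv j f * (v * H)) =
            (f * pderiv j (v * H) + C ((((s + m : ℝ)) : ℂ) + 1) * pderiv j f * (v * H)) -
              f * (pderiv j v * H) := by
          rw [pderiv_mul, smul_eq_C_mul]
          push_cast
          rw [← add_assoc]
          ring
        rw [e2, map_sub, h2, h3, ← map_sub]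
        have e3 : s + m + 1 = s + ((m + 1 : ℕ) : ℝ) := by push_cast; ring
        rw [e3]
        congr 1
        ring
  | algebraMap r =>
    refine ⟨r • LinearMap.id, 0, fun m _ => ⟨fun _ => r • LinearMap.mulLeft ℂ (f ^ m),
      fam_const _, fun s H => ?_, fun Λ hΛ s hs v H => ?_⟩⟩
    · simp only [Module.algebraMap_end_apply, LinearMap.smul_apply, LinearMap.mulLeft_apply]
      rw [pow_add, mul_smul_comm, mul_assoc]
    · simp only [LinearMap.smul_apply, LinearMap.mulLeft_apply, LinearMap.id_apply]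
      rw [← tw_pow hΛ m s hs]
      congr 1
      simp only [smul_eq_C_mul]
      ring
  | add x y _ _ hx hy =>
    obtain ⟨B1, m1, h1⟩ := hx
    obtain ⟨B2, m2, h2⟩ := hy
    refine ⟨B1 + B2, max m1 m2, fun m hm => ?_⟩
    obtain ⟨W1, hW1, ha1, hb1⟩ := h1 m ((le_max_left _ _).trans hm)
    obtain ⟨W2, hW2, ha2, hb2⟩ := h2 m ((le_max_right _ _).trans hm)
    refine ⟨fun s => W1 s + W2 s, fam_add hW1 hW2, fun s H => ?_, fun Λ hΛ s hs v H => ?_⟩
    · rw [LinearMap.add_apply, LinearMap.add_apply, ha1, ha2, mul_add]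
    · rw [LinearMap.add_apply, LinearMap.add_apply, mul_add, map_add, hb1 Λ hΛ s hs,
        hb2 Λ hΛ s hs, add_mul, map_add]
  | mul x y _ _ hx hy =>
    obtain ⟨B1, m1, h1⟩ := hx
    obtain ⟨B2, m2, h2⟩ := hy
    refine ⟨B2 ∘ₗ B1, m1 + m2, fun m hm => ?_⟩
    obtain ⟨W1, hW1, ha1, hb1⟩ := h1 m1 le_rfl
    obtain ⟨W2, hW2, ha2, hb2⟩ := h2 (m - m1) (by omega)
    refine ⟨fun s => W1 s ∘ₗ W2 (s + m1), fam_comp hW1 (fam_shift hW2 _), fun s H => ?_,
      fun Λ hΛ s hs v H => ?_⟩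
    · rw [Module.End.mul_apply]
      have e1 : s + m = (s + m1) + (m - m1) := by omega
      rw [e1, ha2, ha1, LinearMap.comp_apply]
      push_cast
      rfl
    · rw [LinearMap.comp_apply, hb1 Λ hΛ s hs]
      have h3 := hb2 Λ hΛ (s + m1) (by positivity) (B1 v) H
      have e1 : ((((s + m1 : ℝ)) : ℂ)) = (s : ℂ) + m1 := by push_cast; rfl
      rw [e1] at h3
      rw [h3, LinearMap.comp_apply]
      congr 1
      have : ((m - m1 : ℕ) : ℝ) = m - m1 := by rw [Nat.cast_sub (by omega)]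
      rw [this]
      congr 1
      ring

/-! ### FE -/

/-- the coefficients are polynomials in `s` -/
def PolyFn (Ψ : ℂ → MvPolynomial σ ℂ) : Prop :=
  ∀ e, ∃ p : Polynomial ℂ, ∀ s, (Ψ s).coeff e = p.eval s

theorem PolyFn.zero_of_nat {Ψ : ℂ → MvPolynomial σ ℂ} (h : PolyFn Ψ) (h0 : ∀ n : ℕ, Ψ n = 0)
    (s : ℂ) : Ψ s = 0 := by
  ext e
  obtain ⟨p, hp⟩ := h e
  have : p = 0 := by
    apply Polynomial.eq_zero_of_infinite_isRoot
    refine Set.Infinite.mono (s := Set.range (fun n : ℕ => (n : ℂ))) ?_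
      (Set.infinite_range_of_injective Nat.cast_injective)
    rintro _ ⟨n, rfl⟩
    change p.eval (n : ℂ) = 0
    rw [← hp, h0]
    simp
  rw [hp, this]
  simp

theorem polyFn_sub {Ψ Ψ' : ℂ → MvPolynomial σ ℂ} (h : PolyFn Ψ) (h' : PolyFn Ψ') :
    PolyFn fun s => Ψ s - Ψ' s := by
  intro e
  obtain ⟨p, hp⟩ := h e
  obtain ⟨p', hp'⟩ := h' e
  exact ⟨p - p', fun s => by rw [coeff_sub, hp, hp', Polynomial.eval_sub]⟩

theorem polyFn_smul {Ψ : ℂ → MvPolynomial σ ℂ} (q : Polynomial ℂ) (h : PolyFn Ψ) :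
    PolyFn fun s => q.eval s • Ψ s := by
  intro e
  obtain ⟨p, hp⟩ := h e
  exact ⟨q * p, fun s => by rw [coeff_smul, hp, Polynomial.eval_mul, smul_eq_mul]⟩

theorem polyFn_sum {ι : Type} (S : Finset ι) (Ψ : ι → ℂ → MvPolynomial σ ℂ)
    (h : ∀ i, PolyFn (Ψ i)) : PolyFn fun s => ∑ i ∈ S, Ψ i s := by
  intro e
  choose p hp using fun i => h i e
  refine ⟨∑ i ∈ S, p i, fun s => ?_⟩
  rw [coeff_sum, Polynomial.eval_finsetSum]
  exact Finset.sum_congr rfl fun i _ => hp i s

theorem polyFn_const (v : MvPolynomial σ ℂ) : PolyFn fun _ => v := fun e =>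
  ⟨Polynomial.C (v.coeff e), fun s => by simp⟩

theorem polyFn_fam {W : ℂ → (MvPolynomial σ ℂ →ₗ[ℂ] MvPolynomial σ ℂ)} (h : Fam W)
    (H : MvPolynomial σ ℂ) : PolyFn fun s => W s H := by
  obtain ⟨K, w, hw⟩ := h
  have : (fun s => W s H) = fun s => ∑ k ∈ Finset.range K,
      (Polynomial.X ^ k : Polynomial ℂ).eval s • w k H := by
    funext s
    rw [hw s, LinearMap.sum_apply]
    exact Finset.sum_congr rfl fun k _ => by simp
  rw [this]
  exact polyFn_sum _ _ fun k => polyFn_smul _ (polyFn_const _)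

theorem t_FE : StmFE := by
  classical
  intro σ f w c hf hc k
  obtain ⟨P, hP⟩ := t_Steps σ f c hc k
  obtain ⟨K, hK⟩ : ∃ K : ℕ, ∀ i ∈ P.support, i < K :=
    ⟨P.support.sup id + 1, fun i hi => Nat.lt_succ_of_le (Finset.le_sup (f := id) hi)⟩
  choose B m0 hB using fun i : ℕ => t_AdjR σ f w (P i : Module.End ℂ (MvPolynomial σ ℂ)) (P i).2
  obtain ⟨M, hMk, hM⟩ : ∃ M : ℕ, k ≤ M ∧ ∀ i < K, m0 i ≤ M := by
    refine ⟨max k ((Finset.range K).sup m0), le_max_left _ _, fun i hi => ?_⟩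
    exact (Finset.le_sup (f := m0) (Finset.mem_range.2 hi)).trans (le_max_right _ _)
  have hex : ∀ i : ℕ, ∃ W : ℂ → (MvPolynomial σ ℂ →ₗ[ℂ] MvPolynomial σ ℂ), Fam W ∧ (i < K →
      (∀ (s : ℕ) (H : MvPolynomial σ ℂ),
        (P i : Module.End ℂ (MvPolynomial σ ℂ)) (f ^ (s + M) * H) = f ^ s * W (s : ℂ) H) ∧
      ∀ Λ, IsTw f w Λ → ∀ s : ℝ, 0 < s → ∀ v H : MvPolynomial σ ℂ,
        Λ s (v * W (s : ℂ) H) = Λ (s + M) (B i v * H)) := by
    intro i
    by_cases hi : i < K
    · obtain ⟨W, h1, h2, h3⟩ := hB i M (hM i hi)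
      exact ⟨W, h1, fun _ => ⟨h2, h3⟩⟩
    · exact ⟨fun _ => 0, fam_const _, fun h => absurd h hi⟩
  choose W hFam hW using hex
  -- the identity of polynomials
  have hid : ∀ s : ℂ, (∏ i ∈ Finset.range k, c.eval (s + (M - k) + i)) • f ^ (M - k) =
      ∑ i ∈ Finset.range K, ((s + (M - k)) ^ i) • W i s 1 := by
    have hpf : PolyFn fun s : ℂ => (∏ i ∈ Finset.range k, c.eval (s + (M - k) + i)) • f ^ (M - k) -
        ∑ i ∈ Finset.range K, ((s + (M - k)) ^ i) • W i s 1 := by
      refine polyFn_sub ?_ ?_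
      · have h1 := polyFn_smul (∏ i ∈ Finset.range k,
          c.comp (Polynomial.X + Polynomial.C ((M - k : ℂ) + i))) (polyFn_const (f ^ (M - k)))
        simpa [Polynomial.eval_prod, Polynomial.eval_comp, add_assoc] using h1
      · refine polyFn_sum _ _ fun i => ?_
        have h1 := polyFn_smul ((Polynomial.X + Polynomial.C ((M - k : ℂ))) ^ i)
          (polyFn_fam (hFam i) 1)
        simpa using h1
    intro s
    have h0 := hpf.zero_of_nat (fun n => ?_) s
    · exact sub_eq_zero.1 h0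
    · rw [sub_eq_zero]
      have h2 := hP (n + M - k)
      have e1 : n + M - k + k = n + M := by omega
      have e2 : n + M - k = n + (M - k) := by omega
      have e3 : ((n + M - k : ℕ) : ℂ) = n + (M - k) := by
        rw [Nat.cast_sub (by omega)]
        push_cast
        ring
      rw [e1, e3] at h2
      rw [e2] at h2
      have h3 : (P.sum fun m Q => (((n : ℂ) + (M - k)) ^ m) •
          (Q : Module.End ℂ (MvPolynomial σ ℂ)) (f ^ (n + M))) =
          ∑ i ∈ Finset.range K, (((n : ℂ) + (M - k)) ^ i) • (f ^ n * W i n 1) := by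
        rw [Finsupp.sum_of_support_subset P (s := Finset.range K)
          (fun i hi => Finset.mem_range.2 (hK i hi)) _ (fun _ _ => by simp)]
        refine Finset.sum_congr rfl fun i hi => ?_
        have := (hW i (Finset.mem_range.1 hi)).1 n 1
        rw [mul_one] at this
        rw [this]
      rw [h3] at h2
      have hfn : f ^ n ≠ 0 := pow_ne_zero n hf
      apply mul_left_cancel₀ hfn
      rw [Finset.mul_sum]
      simp only [mul_smul_comm]
      rw [← h2, pow_add, smul_eq_C_mul]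
  refine ⟨M, K, B, fun Λ hΛ s hs v => ?_⟩
  have hMk' : ((M - k : ℕ) : ℝ) = M - k := by rw [Nat.cast_sub hMk]
  have hk0 : (0 : ℝ) ≤ k := Nat.cast_nonneg k
  have hs' : 0 < s + k - M := by linarith
  have h1 := hid ((s + k - M : ℝ) : ℂ)
  have e1 : (((s + k - M : ℝ)) : ℂ) + (M - k) = s := by push_cast; ring
  rw [e1] at h1
  have h2 := congrArg (fun p => Λ (s + k - M) (v * p)) h1
  beta_reduce at h2
  rw [mul_smul_comm, map_smul, mul_comm v, tw_pow hΛ _ _ hs', Finset.mul_sum, map_sum, hMk'] at h2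
  have e2 : s + k - M + (M - k) = s := by ring
  rw [e2, smul_eq_mul] at h2
  rw [h2]
  refine Finset.sum_congr rfl fun i hi => ?_
  rw [mul_smul_comm, map_smul, (hW i (Finset.mem_range.1 hi)).2 Λ hΛ _ hs', mul_one, smul_eq_mul]
  have e3 : s + k - M + M = s + k := by ring
  rw [e3]

end Pool.Agent.K3h58.BF2
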