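import Pool.Agent.K3h34.BF.Stm

/-!
# Bricks TRANS and STEPS of project BF
-/

set_option autoImplicit false

namespace Pool.Agent.K3h58.BF2

open MvPolynomial
open Pool.Agent.H628R4.TP (weylS IsBFunction)
open Pool.Agent.K3h34.BF

variable {σ : Type}

/-- the map from the coefficients to the sequences -/
noncomputable def T (k : ℕ) (g : MvPolynomial σ ℂ) :
    (ℕ →₀ weylS σ) →ₗ[ℂ] (ℕ → MvPolynomial σ ℂ) :=
  Finsupp.lsum ℂ fun m =>
    { toFun := fun Q s => ((s : ℂ) ^ m) • (Q : Module.End ℂ (MvPolynomial σ ℂ)) (g ^ (s + k))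
      map_add' := by
        intro Q Q'
        funext s
        simp
      map_smul' := by
        intro a Q
        funext s
        simp [smul_comm a] }

theorem T_apply (k : ℕ) (g : MvPolynomial σ ℂ) (P : ℕ →₀ weylS σ) (s : ℕ) :
    T k g P s = P.sum fun m Q =>
      ((s : ℂ) ^ m) • (Q : Module.End ℂ (MvPolynomial σ ℂ)) (g ^ (s + k)) := by
  rw [T, Finsupp.lsum_apply, Finsupp.sum, Finset.sum_apply]
  rfl

theorem T_single (k : ℕ) (g : MvPolynomial σ ℂ) (m : ℕ) (Q : weylS σ) (s : ℕ) :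
    T k g (Finsupp.single m Q) s =
      ((s : ℂ) ^ m) • (Q : Module.End ℂ (MvPolynomial σ ℂ)) (g ^ (s + k)) := by
  rw [T_apply, Finsupp.sum_single_index]
  simp

theorem range_op (k : ℕ) (g : MvPolynomial σ ℂ) (Q₀ : Module.End ℂ (MvPolynomial σ ℂ))
    (hQ : Q₀ ∈ weylS σ) (Φ : ℕ → MvPolynomial σ ℂ) (h : Φ ∈ LinearMap.range (T k g)) :
    (fun s => Q₀ (Φ s)) ∈ LinearMap.range (T k g) := by
  obtain ⟨P, rfl⟩ := h
  induction P using Finsupp.induction_linear with
  | zero => simp only [map_zero, Pi.zero_apply]; exact zero_mem _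
  | add P P' h h' =>
    have : (fun s => Q₀ ((T k g) (P + P') s)) =
        (fun s => Q₀ (T k g P s)) + fun s => Q₀ (T k g P' s) := by
      funext s
      simp only [map_add, Pi.add_apply]
    rw [this]
    exact add_mem h h'
  | single m Q =>
    refine ⟨Finsupp.single m (⟨Q₀, hQ⟩ * Q), ?_⟩
    funext s
    rw [T_single, T_single]
    simp

theorem range_s (k : ℕ) (g : MvPolynomial σ ℂ) (j : ℕ)
    (Φ : ℕ → MvPolynomial σ ℂ) (h : Φ ∈ LinearMap.range (T k g)) :
    (fun s : ℕ => ((s : ℂ) ^ j) • (Φ s)) ∈ LinearMap.range (T k g) := by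
  obtain ⟨P, rfl⟩ := h
  induction P using Finsupp.induction_linear with
  | zero => simp only [map_zero, Pi.zero_apply, smul_zero]; exact zero_mem _
  | add P P' h h' =>
    have : (fun s : ℕ => ((s : ℂ) ^ j) • ((T k g) (P + P') s)) =
        (fun s : ℕ => ((s : ℂ) ^ j) • (T k g P s)) +
          fun s : ℕ => ((s : ℂ) ^ j) • (T k g P' s) := by
      funext s
      simp only [map_add, Pi.add_apply, smul_add]
    rw [this]
    exact add_mem h h'
  | single m Q =>
    refine ⟨Finsupp.single (j + m) Q, ?_⟩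
    funext s
    rw [T_single, T_single, pow_add, mul_smul]

theorem range_shift (k : ℕ) (g : MvPolynomial σ ℂ) (a : ℂ) (j : ℕ)
    (Φ : ℕ → MvPolynomial σ ℂ) (h : Φ ∈ LinearMap.range (T k g)) :
    (fun s : ℕ => (((s : ℂ) + a) ^ j) • (Φ s)) ∈ LinearMap.range (T k g) := by
  induction j with
  | zero => simpa using h
  | succ j ih =>
    have : (fun s : ℕ => (((s : ℂ) + a) ^ (j + 1)) • (Φ s)) =
        (fun s : ℕ => ((s : ℂ) ^ 1) • ((((s : ℂ) + a) ^ j) • (Φ s))) +
          a • fun s : ℕ => (((s : ℂ) + a) ^ j) • (Φ s) := by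
      funext s
      simp only [Pi.add_apply, Pi.smul_apply, smul_smul, ← add_smul]
      congr 1
      ring
    rw [this]
    exact add_mem (range_s k g 1 _ ih) (Submodule.smul_mem _ _ ih)

/-- the sum of a family, as a sequence -/
theorem sum_mem' (k : ℕ) (g : MvPolynomial σ ℂ) {ι : Type} (S : Finset ι)
    (Φ : ι → ℕ → MvPolynomial σ ℂ) (h : ∀ i ∈ S, Φ i ∈ LinearMap.range (T k g)) :
    (fun s => ∑ i ∈ S, Φ i s) ∈ LinearMap.range (T k g) := by
  have : (fun s => ∑ i ∈ S, Φ i s) = ∑ i ∈ S, Φ i := by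
    funext s
    rw [Finset.sum_apply]
  rw [this]
  exact sum_mem h

theorem base_mem (k : ℕ) (g : MvPolynomial σ ℂ) (Q : Module.End ℂ (MvPolynomial σ ℂ))
    (hQ : Q ∈ weylS σ) : (fun s : ℕ => Q (g ^ (s + k))) ∈ LinearMap.range (T k g) := by
  refine ⟨Finsupp.single 0 ⟨Q, hQ⟩, ?_⟩
  funext s
  rw [T_single]
  simp

theorem t_Steps : StmSteps := by
  intro σ f c hc k
  obtain ⟨P₀, hP₀⟩ := hc
  suffices h : (fun s : ℕ => C (∏ i ∈ Finset.range k, c.eval ((s : ℂ) + i)) * f ^ s) ∈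
      LinearMap.range (T k f) by
    obtain ⟨P, hP⟩ := h
    refine ⟨P, fun s => ?_⟩
    rw [← T_apply, hP]
  induction k with
  | zero =>
    refine ⟨Finsupp.single 0 1, ?_⟩
    funext s
    rw [T_single]
    simp
  | succ k ih =>
    obtain ⟨P, hP⟩ := ih
    have h1 : ∀ s : ℕ, C (∏ i ∈ Finset.range (k + 1), c.eval ((s : ℂ) + i)) * f ^ s =
        ∑ m ∈ P.support, ((s : ℂ) ^ m) • ((P m : weylS σ) : Module.End ℂ (MvPolynomial σ ℂ))
          (∑ j ∈ P₀.support, (((s : ℂ) + k) ^ j) •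
            ((P₀ j : weylS σ) : Module.End ℂ (MvPolynomial σ ℂ)) (f ^ (s + (k + 1)))) := by
      intro s
      have h2 := hP₀ (s + k)
      rw [Finsupp.sum, Nat.cast_add, add_assoc s k 1] at h2
      rw [← h2]
      have h3 := congrFun hP s
      rw [T_apply, Finsupp.sum] at h3
      rw [Finset.prod_range_succ, mul_comm (∏ i ∈ Finset.range k, _), C_mul, mul_assoc, ← h3,
        Finset.mul_sum]
      refine Finset.sum_congr rfl fun m _ => ?_
      rw [mul_smul_comm]
      congr 1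
      rw [← smul_eq_C_mul, ← smul_eq_C_mul, map_smul]
    have h2 : (fun s : ℕ => C (∏ i ∈ Finset.range (k + 1), c.eval ((s : ℂ) + i)) * f ^ s) =
        fun s : ℕ => ∑ m ∈ P.support, ((s : ℂ) ^ m) •
          ((P m : weylS σ) : Module.End ℂ (MvPolynomial σ ℂ))
          (∑ j ∈ P₀.support, (((s : ℂ) + k) ^ j) •
            ((P₀ j : weylS σ) : Module.End ℂ (MvPolynomial σ ℂ)) (f ^ (s + (k + 1)))) :=
      funext h1
    rw [h2]
    refine sum_mem' _ _ _ _ fun m _ => range_s _ _ m _ (range_op _ _ _ (P m).2 _ ?_)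
    refine sum_mem' _ _ _ _ fun j _ => ?_
    exact range_shift _ _ _ _ _ (base_mem _ _ _ (P₀ j).2)

/-! ### TRANS -/

/-- the linear substitution -/
noncomputable def sb {m : ℕ} (M : Matrix (Fin m) (Fin m) ℂ) :
    MvPolynomial (Fin m) ℂ →ₐ[ℂ] MvPolynomial (Fin m) ℂ :=
  aeval (fun j => ∑ k, C (M j k) * X k : Fin m → MvPolynomial (Fin m) ℂ)

theorem sb_X {m : ℕ} (M : Matrix (Fin m) (Fin m) ℂ) (j : Fin m) :
    sb M (X j) = ∑ k, C (M j k) * X k := by
  rw [sb, aeval_X]

theorem sb_C {m : ℕ} (M : Matrix (Fin m) (Fin m) ℂ) (a : ℂ) : sb M (C a) = C a := by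
  rw [sb, aeval_C]
  rfl

theorem sb_sb {m : ℕ} {M M' : Matrix (Fin m) (Fin m) ℂ} (h : M * M' = 1)
    (p : MvPolynomial (Fin m) ℂ) : sb M' (sb M p) = p := by
  have : (sb M').comp (sb M) = AlgHom.id ℂ _ := by
    apply MvPolynomial.algHom_ext
    intro j
    rw [AlgHom.comp_apply, sb_X, map_sum, AlgHom.id_apply]
    simp only [map_mul, sb_C, sb_X, Finset.mul_sum]
    rw [Finset.sum_comm]
    have h1 : ∀ l : Fin m, ∑ k, C (M j k) * (C (M' k l) * (X l : MvPolynomial (Fin m) ℂ)) =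
        C ((1 : Matrix (Fin m) (Fin m) ℂ) j l) * X l := by
      intro l
      rw [← h, Matrix.mul_apply, map_sum, Finset.sum_mul]
      refine Finset.sum_congr rfl fun k _ => ?_
      rw [C_mul, mul_assoc]
    simp only [h1]
    rw [Finset.sum_eq_single j]
    · simp
    · intro l _ hl
      rw [Matrix.one_apply_ne hl.symm]
      simp
    · simp
  exact DFunLike.congr_fun this p

theorem sb_pderiv {m : ℕ} {M M' : Matrix (Fin m) (Fin m) ℂ} (h : M' * M = 1) (j : Fin m)
    (p : MvPolynomial (Fin m) ℂ) :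
    sb M (pderiv j (sb M' p)) = ∑ k, (M' k j) • pderiv k p := by
  classical
  induction p using MvPolynomial.induction_on with
  | C a => simp
  | add p q hp hq => simp only [map_add, hp, hq, smul_add, Finset.sum_add_distrib]
  | mul_X p i hp =>
    have h1 : sb M (pderiv j (sb M' (X i))) = C (M' i j) := by
      rw [sb_X, map_sum, Finset.sum_eq_single j]
      · rw [pderiv_C_mul, pderiv_X_self, mul_one, sb_C]
      · intro k _ hk
        rw [pderiv_C_mul, pderiv_X_of_ne hk, mul_zero]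
      · simp
    have h2 : ∀ q, sb M (sb M' q) = q := sb_sb h
    rw [map_mul, pderiv_mul, map_add, map_mul, map_mul, hp, h1, h2, h2]
    simp only [pderiv_mul, smul_add, Finset.sum_add_distrib, pderiv_X]
    congr 1
    · rw [Finset.sum_mul]
      exact Finset.sum_congr rfl fun k _ => by rw [smul_mul_assoc]
    · rw [Finset.sum_eq_single i]
      · rw [Pi.single_eq_same, mul_one, smul_eq_C_mul, mul_comm]
      · intro k _ hk
        rw [Pi.single_eq_of_ne hk.symm, mul_zero, smul_zero]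
      · simp

theorem mulX_mem {m : ℕ} (j : Fin m) :
    LinearMap.mulLeft ℂ (X j : MvPolynomial (Fin m) ℂ) ∈ weylS (Fin m) :=
  Algebra.subset_adjoin (Or.inl ⟨j, rfl⟩)

theorem pderiv_mem {m : ℕ} (j : Fin m) :
    ((pderiv j : Derivation ℂ (MvPolynomial (Fin m) ℂ) (MvPolynomial (Fin m) ℂ)) :
      MvPolynomial (Fin m) ℂ →ₗ[ℂ] MvPolynomial (Fin m) ℂ) ∈ weylS (Fin m) :=
  Algebra.subset_adjoin (Or.inr ⟨j, rfl⟩)

theorem conj_mem {m : ℕ} {M M' : Matrix (Fin m) (Fin m) ℂ} (h : M * M' = 1) (h' : M' * M = 1)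
    (Q : Module.End ℂ (MvPolynomial (Fin m) ℂ)) (hQ : Q ∈ weylS (Fin m)) :
    (sb M).toLinearMap ∘ₗ Q ∘ₗ (sb M').toLinearMap ∈ weylS (Fin m) := by
  induction hQ using Algebra.adjoin_induction with
  | mem x hx =>
    rcases hx with ⟨j, rfl⟩ | ⟨j, rfl⟩
    · have : (sb M).toLinearMap ∘ₗ (LinearMap.mulLeft ℂ (X j : MvPolynomial (Fin m) ℂ)) ∘ₗ
          (sb M').toLinearMap = ∑ k, M j k • LinearMap.mulLeft ℂ (X k) := by
        apply LinearMap.ext
        intro p
        simp only [LinearMap.comp_apply, AlgHom.toLinearMap_apply, LinearMap.mulLeft_apply,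
          map_mul, sb_sb h', sb_X, LinearMap.sum_apply, LinearMap.smul_apply, Finset.sum_mul,
          smul_eq_C_mul, mul_assoc]
      rw [this]
      exact sum_mem fun k _ => Subalgebra.smul_mem _ (mulX_mem k) _
    · have : (sb M).toLinearMap ∘ₗ (((pderiv j : Derivation ℂ (MvPolynomial (Fin m) ℂ)
          (MvPolynomial (Fin m) ℂ)) : MvPolynomial (Fin m) ℂ →ₗ[ℂ] MvPolynomial (Fin m) ℂ)) ∘ₗ
          (sb M').toLinearMap = ∑ k, M' k j • ((pderiv k : Derivation ℂ (MvPolynomial (Fin m) ℂ)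
          (MvPolynomial (Fin m) ℂ)) : MvPolynomial (Fin m) ℂ →ₗ[ℂ] MvPolynomial (Fin m) ℂ) := by
        apply LinearMap.ext
        intro p
        simp only [LinearMap.comp_apply, AlgHom.toLinearMap_apply, Derivation.coeFn_coe,
          sb_pderiv h', LinearMap.sum_apply, LinearMap.smul_apply]
      rw [this]
      exact sum_mem fun k _ => Subalgebra.smul_mem _ (pderiv_mem k) _
  | algebraMap r =>
    have : (sb M).toLinearMap ∘ₗ (algebraMap ℂ (Module.End ℂ (MvPolynomial (Fin m) ℂ)) r) ∘ₗ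
        (sb M').toLinearMap = algebraMap ℂ (Module.End ℂ (MvPolynomial (Fin m) ℂ)) r := by
      apply LinearMap.ext
      intro p
      simp only [LinearMap.comp_apply, AlgHom.toLinearMap_apply, Module.algebraMap_end_apply,
        map_smul, sb_sb h']
    rw [this]
    exact Subalgebra.algebraMap_mem _ r
  | add x y _ _ hx hy =>
    have : (sb M).toLinearMap ∘ₗ (x + y) ∘ₗ (sb M').toLinearMap =
        (sb M).toLinearMap ∘ₗ x ∘ₗ (sb M').toLinearMap +
          (sb M).toLinearMap ∘ₗ y ∘ₗ (sb M').toLinearMap := by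
      apply LinearMap.ext
      intro p
      simp only [LinearMap.comp_apply, LinearMap.add_apply, map_add]
    rw [this]
    exact add_mem hx hy
  | mul x y _ _ hx hy =>
    have : (sb M).toLinearMap ∘ₗ (x * y) ∘ₗ (sb M').toLinearMap =
        ((sb M).toLinearMap ∘ₗ x ∘ₗ (sb M').toLinearMap) *
          ((sb M).toLinearMap ∘ₗ y ∘ₗ (sb M').toLinearMap) := by
      apply LinearMap.ext
      intro p
      simp only [LinearMap.comp_apply, Module.End.mul_apply, AlgHom.toLinearMap_apply, sb_sb h]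
    rw [this]
    exact mul_mem hx hy

theorem t_Trans : StmTrans := by
  intro m M M' h f c hc
  obtain ⟨P, hP⟩ := hc
  have h' : M' * M = 1 := mul_eq_one_comm.1 h
  suffices hs : (fun s : ℕ => C (c.eval (s : ℂ)) * (sb M f) ^ s) ∈
      LinearMap.range (T 1 (sb M f)) by
    obtain ⟨P', hP'⟩ := hs
    refine ⟨P', fun s => ?_⟩
    have := congrFun hP' s
    rw [T_apply] at this
    exact this.symm
  have h1 : (fun s : ℕ => C (c.eval (s : ℂ)) * (sb M f) ^ s) = fun s : ℕ =>
      ∑ k ∈ P.support, ((s : ℂ) ^ k) • ((sb M).toLinearMap ∘ₗ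
        ((P k : weylS (Fin m)) : Module.End ℂ (MvPolynomial (Fin m) ℂ)) ∘ₗ
          (sb M').toLinearMap) ((sb M f) ^ (s + 1)) := by
    funext s
    have h2 := congrArg (sb M) (hP s)
    rw [map_mul, map_pow, sb_C] at h2
    rw [h2, Finsupp.sum, map_sum]
    refine Finset.sum_congr rfl fun k _ => ?_
    rw [map_smul]
    simp only [LinearMap.comp_apply, AlgHom.toLinearMap_apply, map_pow, sb_sb h]
  rw [h1]
  exact sum_mem' _ _ _ _ fun k _ => range_s _ _ k _ (base_mem _ _ _ (conj_mem h h' _ (P k).2))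

end Pool.Agent.K3h58.BF2
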